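import Mathlib

namespace Pool.Agent.Results.MP_09f43a_co.Superadditive

open Finset Filter Topology

/-- `F → (G)^v_r`: every colouring of the vertices of `F` with `r` colours has a monochromatic
copy of `G`, not necessarily induced. -/
def Arrows {V W : Type} (F : SimpleGraph V) (G : SimpleGraph W) (r : ℕ) : Prop :=
  ∀ c : V → Fin r, ∃ f : W → V, Function.Injective f ∧
    (∀ a b, G.Adj a b → F.Adj (f a) (f b)) ∧ ∀ a b, c (f a) = c (f b)

/-- The maximum average degree: the largest `2 |E(H)| / |V(H)|` over the subgraphs `H` of `F`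
with at least one vertex. -/
noncomputable def mad {V : Type} (F : SimpleGraph V) : ℝ :=
  sSup {x : ℝ | ∃ H : F.Subgraph, H.verts.Nonempty ∧
    x = 2 * (H.edgeSet.ncard : ℝ) / (H.verts.ncard : ℝ)}

/-- `m_cr(G, r)`: the infimum of `mad F` over the finite graphs `F` with `F → (G)^v_r`. -/
noncomputable def mcr {W : Type} (G : SimpleGraph W) (r : ℕ) : ℝ :=
  sInf {x : ℝ | ∃ (n : ℕ) (F : SimpleGraph (Fin n)), Arrows F G r ∧ x = mad F}

section Orient

set_option linter.unusedSectionVars false

variable {V : Type} [Fintype V] [DecidableEq V]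

/-- The fractional orientations of a graph: every edge is split between its two ends. -/
def Ori (G : SimpleGraph V) : Set (V → V → ℝ) :=
  {x | (∀ u v, 0 ≤ x u v) ∧ (∀ u v, ¬ G.Adj u v → x u v = 0) ∧
    (∀ u v, G.Adj u v → x u v + x v u = 1)}

lemma ori_le_one {G : SimpleGraph V} {x : V → V → ℝ} (hx : x ∈ Ori G) (u v : V) :
    x u v ≤ 1 := by
  obtain ⟨h0, h1, h2⟩ := hx
  by_cases h : G.Adj u v
  · have := h2 u v h
    have := h0 v u
    linarith
  · rw [h1 u v h]; norm_num

lemma isClosed_ori (G : SimpleGraph V) : IsClosed (Ori G) := by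
  have e : Ori G = {x | ∀ u v, 0 ≤ x u v} ∩ ({x | ∀ u v, ¬ G.Adj u v → x u v = 0} ∩
      {x | ∀ u v, G.Adj u v → x u v + x v u = 1}) := by
    ext x; simp [Ori]
  rw [e]
  refine IsClosed.inter ?_ (IsClosed.inter ?_ ?_)
  · simp only [Set.ofPred_forall]
    refine isClosed_iInter fun u => isClosed_iInter fun v => ?_
    exact isClosed_le continuous_const (by fun_prop)
  · simp only [Set.ofPred_forall]
    refine isClosed_iInter fun u => isClosed_iInter fun v => isClosed_iInter fun _ => ?_
    exact isClosed_eq (by fun_prop) continuous_const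
  · simp only [Set.ofPred_forall]
    refine isClosed_iInter fun u => isClosed_iInter fun v => isClosed_iInter fun _ => ?_
    exact isClosed_eq (by fun_prop) continuous_const

lemma isCompact_ori (G : SimpleGraph V) : IsCompact (Ori G) := by
  have hc : IsCompact (Set.pi Set.univ fun _ : V => Set.pi Set.univ fun _ : V =>
      Set.Icc (0 : ℝ) 1) :=
    isCompact_univ_pi fun _ => isCompact_univ_pi fun _ => isCompact_Icc
  refine hc.of_isClosed_subset (isClosed_ori G) ?_
  intro x hx
  simp only [Set.mem_pi, Set.mem_univ, forall_true_left, Set.mem_Icc]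
  exact fun u v => ⟨hx.1 u v, ori_le_one hx u v⟩

lemma ori_nonempty (G : SimpleGraph V) : (Ori G).Nonempty := by
  classical
  refine ⟨fun u v => if G.Adj u v then 1 / 2 else 0, ?_, ?_, ?_⟩
  · intro u v; dsimp only; split_ifs <;> norm_num
  · intro u v h; simp [h]
  · intro u v h
    have h' : G.Adj v u := h.symm
    simp [h, h']; norm_num

/-- Shifting an orientation along an antisymmetric direction. -/
def shift (x : V → V → ℝ) (n : V → V → ℝ) (ε : ℝ) : V → V → ℝ :=
  fun a b => x a b - ε * (n a b - n b a)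

lemma shift_mem {G : SimpleGraph V} {x : V → V → ℝ} (hx : x ∈ Ori G) (n : V → V → ℝ)
    (hn : ∀ a b, ¬ G.Adj a b → n a b = 0) (ε : ℝ)
    (hpos : ∀ a b, 0 ≤ shift x n ε a b) : shift x n ε ∈ Ori G := by
  refine ⟨hpos, ?_, ?_⟩
  · intro a b h
    have h' : ¬ G.Adj b a := fun h'' => h h''.symm
    simp [shift, hx.2.1 a b h, hn a b h, hn b a h']
  · intro a b h
    have := hx.2.2 a b h
    simp only [shift]; linarith

/-- A fractional orientation with all outflows at most the density. -/
lemma exists_ori_out (G : SimpleGraph V) (lam : ℝ)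
    (hlam : ∀ W : Finset V, ∀ x ∈ Ori G, ∑ u ∈ W, ∑ v ∈ W, x u v ≤ lam * (#W : ℝ)) :
    ∃ x ∈ Ori G, ∀ u, ∑ v, x u v ≤ lam := by
  have hcont : Continuous fun x : V → V → ℝ => ∑ u, (∑ v, x u v) ^ 2 := by fun_prop
  obtain ⟨x, hx, hmin⟩ := (isCompact_ori G).exists_isMinOn (ori_nonempty G) hcont.continuousOn
  refine ⟨x, hx, ?_⟩
  set o : V → ℝ := fun u => ∑ v, x u v with ho
  -- the exchange property
  have hex : ∀ u v, 0 < x u v → o u ≤ o v := by
    intro u v huv
    by_contra hlt
    push Not at hlt
    have hadj : G.Adj u v := by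
      by_contra h
      rw [hx.2.1 u v h] at huv
      exact lt_irrefl _ huv
    have hne : u ≠ v := hadj.ne
    set ε : ℝ := min (x u v) ((o u - o v) / 2) with hε
    have hε0 : 0 < ε := lt_min huv (by linarith)
    have hε1 : ε ≤ x u v := min_le_left _ _
    have hε2 : ε ≤ (o u - o v) / 2 := min_le_right _ _
    set n : V → V → ℝ := fun a b => if a = u ∧ b = v then 1 else 0 with hn
    have hmem : shift x n ε ∈ Ori G := by
      refine shift_mem hx n ?_ ε ?_
      · intro a b h
        simp only [hn]
        rw [if_neg]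
        rintro ⟨rfl, rfl⟩
        exact h hadj
      · intro a b
        simp only [shift, hn]
        have h0 := hx.1 a b
        by_cases h1 : a = u ∧ b = v
        · have h2 : ¬ (b = u ∧ a = v) := by
            rintro ⟨h3, h4⟩
            exact hne (h1.1.symm.trans h4)
          rw [if_pos h1, if_neg h2, h1.1, h1.2]
          linarith
        · rw [if_neg h1]
          split_ifs <;> linarith
    have hout : ∀ a, ∑ b, shift x n ε a b
        = o a - ε * ((if a = u then 1 else 0) - (if a = v then 1 else 0)) := by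
      intro a
      simp only [shift, hn, Finset.sum_sub_distrib, ← Finset.mul_sum, ho]
      have e1 : ∑ b, (if a = u ∧ b = v then (1 : ℝ) else 0) = if a = u then 1 else 0 := by
        by_cases h : a = u <;> simp [h]
      have e2 : ∑ b, (if b = u ∧ a = v then (1 : ℝ) else 0) = if a = v then 1 else 0 := by
        by_cases h : a = v <;> simp [h]
      rw [e1, e2]
    have hmin' := hmin hmem
    simp only [Set.mem_ofPred_eq] at hmin'
    have hQ : ∑ a, (∑ b, shift x n ε a b) ^ 2
        = ∑ a, (o a) ^ 2 - 2 * ε * (o u - o v) + 2 * ε ^ 2 := by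
      have e : ∀ a, (∑ b, shift x n ε a b) ^ 2 = (o a) ^ 2
          - 2 * ε * ((if a = u then o a else 0) - (if a = v then o a else 0))
          + ε ^ 2 * ((if a = u then 1 else 0) + (if a = v then 1 else 0)) := by
        intro a
        rw [hout a]
        by_cases h1 : a = u
        · have h2 : a ≠ v := fun h => hne (h1.symm.trans h)
          rw [if_pos h1, if_neg h2, if_pos h1, if_neg h2]
          ring
        · by_cases h2 : a = v
          · rw [if_neg h1, if_pos h2, if_neg h1, if_pos h2]
            ring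
          · rw [if_neg h1, if_neg h2, if_neg h1, if_neg h2]
            ring
      rw [Finset.sum_congr rfl fun a _ => e a]
      simp only [Finset.sum_add_distrib, Finset.sum_sub_distrib, ← Finset.mul_sum,
        Finset.sum_ite_eq', Finset.mem_univ, if_true]
      ring
    have h3 : ∑ a, (∑ b, x a b) ^ 2 = ∑ a, (o a) ^ 2 := rfl
    rw [h3, hQ] at hmin'
    nlinarith
  -- the maximum
  intro u0
  have hne : (Finset.univ : Finset V).Nonempty := ⟨u0, Finset.mem_univ _⟩
  obtain ⟨m, -, hm⟩ := Finset.exists_max_image Finset.univ o hne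
  set W : Finset V := Finset.univ.filter fun u => o u = o m with hW
  have hmW : m ∈ W := by simp [hW]
  have hzero : ∀ u ∈ W, ∀ v, v ∉ W → x u v = 0 := by
    intro u hu v hv
    by_contra h
    have hpos : 0 < x u v := lt_of_le_of_ne (hx.1 u v) (Ne.symm h)
    have h1 := hex u v hpos
    have h2 : o u = o m := by simpa [hW] using hu
    have h3 := hm v (Finset.mem_univ _)
    exact hv (by simp [hW]; linarith)
  have hsum : ∑ u ∈ W, o u = ∑ u ∈ W, ∑ v ∈ W, x u v := by
    refine Finset.sum_congr rfl fun u hu => ?_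
    rw [ho]
    symm
    exact Finset.sum_subset (Finset.subset_univ W) fun v _ hv => hzero u hu v hv
  have hsum2 : ∑ u ∈ W, o u = (#W : ℝ) * o m := by
    rw [Finset.sum_congr rfl (g := fun _ => o m) (fun u hu => by simpa [hW] using hu)]
    simp
  have hWpos : (0 : ℝ) < #W := by exact_mod_cast Finset.card_pos.mpr ⟨m, hmW⟩
  have h5 := hlam W x hx
  rw [← hsum, hsum2] at h5
  have h6 : o m ≤ lam := by
    by_contra h
    push Not at h
    nlinarith
  exact (hm u0 (Finset.mem_univ _)).trans h6

end Orient

section Count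

set_option linter.unusedSectionVars false

variable {V : Type} [Fintype V] [DecidableEq V]

open Classical in
lemma two_edges (K : SimpleGraph V) :
    2 * (K.edgeSet.ncard : ℝ) = ∑ u, ∑ v, if K.Adj u v then 1 else 0 := by
  have h1 : K.edgeSet.ncard = #K.edgeFinset := by
    rw [SimpleGraph.edgeFinset, Set.ncard_eq_toFinset_card']
  have h2 := K.sum_degrees_eq_twice_card_edges
  have h3 : ∀ u, (K.degree u : ℝ) = ∑ v, if K.Adj u v then 1 else 0 := by
    intro u
    rw [← SimpleGraph.card_neighborFinset_eq_degree, SimpleGraph.neighborFinset_eq_filter]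
    rw [Finset.sum_ite]
    simp
  rw [h1]
  have h4 : (2 : ℝ) * (#K.edgeFinset : ℝ) = ∑ v, (K.degree v : ℝ) := by
    exact_mod_cast h2.symm
  rw [h4]
  exact Finset.sum_congr rfl fun u _ => h3 u

lemma mad_set_bdd (F : SimpleGraph V) :
    BddAbove {x : ℝ | ∃ H : F.Subgraph, H.verts.Nonempty ∧
      x = 2 * (H.edgeSet.ncard : ℝ) / (H.verts.ncard : ℝ)} := by
  refine ⟨2 * (F.edgeSet.ncard : ℝ), ?_⟩
  rintro x ⟨H, hH, rfl⟩
  have h1 : (1 : ℝ) ≤ (H.verts.ncard : ℝ) := by
    have : 0 < H.verts.ncard := (Set.ncard_pos (Set.toFinite _)).mpr hH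
    exact_mod_cast this
  have h2 : (H.edgeSet.ncard : ℝ) ≤ (F.edgeSet.ncard : ℝ) := by
    exact_mod_cast Set.ncard_le_ncard H.edgeSet_subset (Set.toFinite _)
  rw [div_le_iff₀ (by linarith)]
  have h3 : (0 : ℝ) ≤ (F.edgeSet.ncard : ℝ) := by positivity
  nlinarith

lemma mad_nonneg (F : SimpleGraph V) : 0 ≤ mad F := by
  apply Real.sSup_nonneg
  rintro x ⟨H, _, rfl⟩
  positivity

open Classical in
/-- Twice the flow inside `W` is twice the number of edges inside `W`. -/
lemma two_flow {F : SimpleGraph V} {x : V → V → ℝ} (hx : x ∈ Ori F) (W : Finset V) :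
    2 * ∑ u ∈ W, ∑ v ∈ W, x u v = ∑ u ∈ W, ∑ v ∈ W, if F.Adj u v then (1 : ℝ) else 0 := by
  have h1 : ∑ u ∈ W, ∑ v ∈ W, x u v = ∑ u ∈ W, ∑ v ∈ W, x v u := by
    rw [Finset.sum_comm]
  have h2 : ∀ u v, x u v + x v u = if F.Adj u v then (1 : ℝ) else 0 := by
    intro u v
    by_cases h : F.Adj u v
    · rw [if_pos h]; exact hx.2.2 u v h
    · rw [if_neg h, hx.2.1 u v h, hx.2.1 v u (fun h' => h h'.symm)]; norm_num
  calc 2 * ∑ u ∈ W, ∑ v ∈ W, x u v
      = ∑ u ∈ W, ∑ v ∈ W, x u v + ∑ u ∈ W, ∑ v ∈ W, x v u := by rw [← h1]; ring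
    _ = ∑ u ∈ W, ∑ v ∈ W, (x u v + x v u) := by
        rw [← Finset.sum_add_distrib]
        exact Finset.sum_congr rfl fun u _ => by rw [← Finset.sum_add_distrib]
    _ = _ := Finset.sum_congr rfl fun u _ => Finset.sum_congr rfl fun v _ => h2 u v

open Classical in
lemma flow_le_mad {F : SimpleGraph V} (W : Finset V) (x : V → V → ℝ) (hx : x ∈ Ori F) :
    ∑ u ∈ W, ∑ v ∈ W, x u v ≤ mad F / 2 * (#W : ℝ) := by
  by_cases hW : W = ∅
  · subst hW; simp
  have hWne : W.Nonempty := Finset.nonempty_iff_ne_empty.mpr hW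
  have hpos : (0 : ℝ) < #W := by exact_mod_cast Finset.card_pos.mpr hWne
  let H : F.Subgraph := (⊤ : F.Subgraph).induce (W : Set V)
  have hv : H.verts = (W : Set V) := rfl
  have hle : 2 * (H.edgeSet.ncard : ℝ) / (H.verts.ncard : ℝ) ≤ mad F :=
    le_csSup (mad_set_bdd F) ⟨H, by rw [hv]; exact_mod_cast hWne, rfl⟩
  have he : 2 * (H.edgeSet.ncard : ℝ) = ∑ u ∈ W, ∑ v ∈ W, if F.Adj u v then (1 : ℝ) else 0 := by
    rw [← SimpleGraph.Subgraph.edgeSet_spanningCoe, two_edges]
    have h1 : ∀ u v, (if H.spanningCoe.Adj u v then (1 : ℝ) else 0)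
        = if u ∈ W then (if v ∈ W then (if F.Adj u v then (1 : ℝ) else 0) else 0) else 0 := by
      intro u v
      by_cases hu : u ∈ W <;> by_cases hv : v ∈ W <;> by_cases hF : F.Adj u v <;>
        simp [H, hu, hv, hF]
    rw [Finset.sum_congr rfl fun u _ => Finset.sum_congr rfl fun v _ => h1 u v]
    rw [← Finset.sum_subset (Finset.subset_univ W)]
    · refine Finset.sum_congr rfl fun u hu => ?_
      rw [← Finset.sum_subset (Finset.subset_univ W)]
      · refine Finset.sum_congr rfl fun v hv => ?_
        rw [if_pos hu, if_pos hv]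
      · intro v _ hv
        rw [if_pos hu, if_neg hv]
    · intro u _ hu
      simp [hu]
  rw [he, hv, Set.ncard_coe_finset, ← two_flow hx W, div_le_iff₀ hpos] at hle
  linarith

open Classical in
lemma edges_le_flow {F : SimpleGraph V} (x : V → V → ℝ) (hx : x ∈ Ori F) (H : F.Subgraph)
    (W : Finset V) (hW : ∀ v ∈ H.verts, v ∈ W) :
    (H.edgeSet.ncard : ℝ) ≤ ∑ u ∈ W, ∑ v ∈ W, x u v := by
  have h0 : 2 * (H.edgeSet.ncard : ℝ) ≤ 2 * ∑ u ∈ W, ∑ v ∈ W, x u v := by
    rw [← SimpleGraph.Subgraph.edgeSet_spanningCoe, two_edges, two_flow hx W]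
    rw [← Finset.sum_subset (Finset.subset_univ W)]
    · refine Finset.sum_le_sum fun u hu => ?_
      rw [← Finset.sum_subset (Finset.subset_univ W)]
      · refine Finset.sum_le_sum fun v hv => ?_
        by_cases h : H.spanningCoe.Adj u v
        · have h' : F.Adj u v := H.adj_sub h
          rw [if_pos h, if_pos h']
        · rw [if_neg h]; split_ifs <;> norm_num
      · intro v _ hv
        rw [if_neg]
        intro h
        have h' : H.spanningCoe.Adj v u := SimpleGraph.Adj.symm h
        exact hv (hW v (H.edge_vert h'))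
    · intro u _ hu
      refine Finset.sum_eq_zero fun v _ => ?_
      rw [if_neg]
      intro h
      exact hu (hW u (H.edge_vert h))
  linarith

end Count


section Weights

set_option linter.unusedSectionVars false

variable {V : Type} [Fintype V] [DecidableEq V]

open Classical in
/-- The value of the concave programme at the weights `c`. -/
noncomputable def val (G : SimpleGraph V) (lam : ℝ) (c : V → ℝ) : ℝ :=
  ∑ u, ∑ w, (if G.Adj u w then Real.log (c u + c w) else 0) - 2 * lam * ∑ u, Real.log (c u)

open Classical in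
/-- The orientation given by positive vertex weights. -/
noncomputable def wor (G : SimpleGraph V) (c : V → ℝ) (u w : V) : ℝ :=
  if G.Adj u w then c u / (c u + c w) else 0

lemma wor_mem (G : SimpleGraph V) (c : V → ℝ) (hc : ∀ v, 0 < c v) : wor G c ∈ Ori G := by
  refine ⟨?_, ?_, ?_⟩
  · intro u w
    unfold wor
    split_ifs
    · have := hc u; have := hc w; positivity
    · exact le_rfl
  · intro u w h
    unfold wor
    rw [if_neg h]
  · intro u w h
    unfold wor
    rw [if_pos h, if_pos h.symm]
    have h1 := hc u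
    have h2 := hc w
    field_simp
    ring

/-- Positive weights whose orientation has all outflows at most `lam`. -/
lemma exists_weights (G : SimpleGraph V) (lam0 lam : ℝ) (hlt : lam0 < lam) (hlam : 0 ≤ lam)
    (hex : ∃ x ∈ Ori G, ∀ u, ∑ v, x u v ≤ lam0) :
    ∃ c : V → ℝ, (∀ v, 0 < c v) ∧ ∀ v, ∑ w, wor G c v w ≤ lam := by
  classical
  obtain ⟨x, hx, hxo⟩ := hex
  -- coercivity
  have hco : ∀ c : V → ℝ, (∀ v, 0 < c v) → (∀ v, c v ≤ 1) →
      -(2 * (lam - lam0)) * ∑ u, Real.log (c u) ≤ val G lam c := by
    intro c hc0 hc1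
    have h1 : ∀ u w, x u w * Real.log (c u) + x w u * Real.log (c w)
        ≤ if G.Adj u w then Real.log (c u + c w) else 0 := by
      intro u w
      by_cases h : G.Adj u w
      · rw [if_pos h]
        have e := hx.2.2 u w h
        have p1 := hx.1 u w
        have p2 := hx.1 w u
        have l1 : Real.log (c u) ≤ Real.log (c u + c w) :=
          Real.log_le_log (hc0 u) (by have := hc0 w; linarith)
        have l2 : Real.log (c w) ≤ Real.log (c u + c w) :=
          Real.log_le_log (hc0 w) (by have := hc0 u; linarith)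
        have e2 : Real.log (c u + c w)
            = x u w * Real.log (c u + c w) + x w u * Real.log (c u + c w) := by
          rw [← add_mul, e, one_mul]
        rw [e2]
        exact add_le_add (mul_le_mul_of_nonneg_left l1 p1) (mul_le_mul_of_nonneg_left l2 p2)
      · rw [if_neg h, hx.2.1 u w h, hx.2.1 w u (fun h' => h h'.symm)]
        simp
    have h2 : ∑ u, ∑ w, (x u w * Real.log (c u) + x w u * Real.log (c w))
        ≤ ∑ u, ∑ w, (if G.Adj u w then Real.log (c u + c w) else 0) :=
      Finset.sum_le_sum fun u _ => Finset.sum_le_sum fun w _ => h1 u w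
    have h3 : ∑ u, ∑ w, (x u w * Real.log (c u) + x w u * Real.log (c w))
        = 2 * ∑ u, (∑ w, x u w) * Real.log (c u) := by
      simp only [Finset.sum_add_distrib]
      have e1 : ∑ u, ∑ w, x w u * Real.log (c w) = ∑ u, ∑ w, x u w * Real.log (c u) :=
        Finset.sum_comm
      rw [e1]
      have e2 : ∀ u, ∑ w, x u w * Real.log (c u) = (∑ w, x u w) * Real.log (c u) :=
        fun u => (Finset.sum_mul _ _ _).symm
      rw [Finset.sum_congr rfl fun u _ => e2 u]
      ring
    have h4 : lam0 * ∑ u, Real.log (c u) ≤ ∑ u, (∑ w, x u w) * Real.log (c u) := by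
      rw [Finset.mul_sum]
      refine Finset.sum_le_sum fun u _ => ?_
      exact mul_le_mul_of_nonpos_right (hxo u) (Real.log_nonpos (hc0 u).le (hc1 u))
    unfold val
    nlinarith
  -- a minimiser
  set B : ℝ := val G lam (fun _ => 1) with hB
  have hB0 : 0 ≤ B := by
    have := hco (fun _ => 1) (fun _ => one_pos) (fun _ => le_rfl)
    simpa using this
  set M : ℝ := (B + 1) / (2 * (lam - lam0)) with hM
  have hd : 0 < 2 * (lam - lam0) := by linarith
  have hMpos : 0 < M := by positivity
  set δ : ℝ := Real.exp (-M) with hδ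
  have hδ0 : 0 < δ := Real.exp_pos _
  have hδ1 : δ ≤ 1 := Real.exp_le_one_iff.mpr (by linarith)
  let K : Set (V → ℝ) := Set.pi Set.univ fun _ => Set.Icc δ 1
  have hK : IsCompact K := isCompact_univ_pi fun _ => isCompact_Icc
  have hKne : K.Nonempty := ⟨fun _ => 1, by
    simp only [K, Set.mem_pi, Set.mem_univ, forall_true_left, Set.mem_Icc]
    exact fun _ => ⟨hδ1, le_rfl⟩⟩
  have hKpos : ∀ c ∈ K, ∀ v, 0 < c v := by
    intro c hc v
    have := hc v (Set.mem_univ _)
    exact lt_of_lt_of_le hδ0 this.1
  have hcont : ContinuousOn (fun c : V → ℝ => val G lam c) K := by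
    unfold val
    refine ContinuousOn.sub ?_ ?_
    · refine continuousOn_finsetSum _ fun u _ => continuousOn_finsetSum _ fun w _ => ?_
      by_cases h : G.Adj u w
      · simp only [if_pos h]
        refine ContinuousOn.log (by fun_prop) ?_
        intro c hc
        have h1 := hKpos c hc u
        have h2 := hKpos c hc w
        positivity
      · simp only [if_neg h]
        exact continuousOn_const
    · refine ContinuousOn.mul continuousOn_const ?_
      refine continuousOn_finsetSum _ fun u _ => ?_
      refine ContinuousOn.log (by fun_prop) ?_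
      intro c hc
      exact (hKpos c hc u).ne'
  obtain ⟨c, hcK, hmin⟩ := hK.exists_isMinOn hKne hcont
  have hc0 : ∀ v, 0 < c v := hKpos c hcK
  have hc1 : ∀ v, c v ≤ 1 := fun v => (hcK v (Set.mem_univ _)).2
  have hglob : ∀ c' : V → ℝ, (∀ v, 0 < c' v) → (∀ v, c' v ≤ 1) →
      val G lam c ≤ val G lam c' := by
    intro c' h0 h1
    by_cases h : c' ∈ K
    · exact hmin h
    · have h2 : ∃ v, c' v < δ := by
        by_contra h3
        push Not at h3
        exact h fun v _ => ⟨h3 v, h1 v⟩
      obtain ⟨v, hv⟩ := h2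
      have h4 : Real.log (c' v) < -M := by
        rw [← Real.log_exp (-M)]
        exact Real.log_lt_log (h0 v) hv
      have h5 : ∑ u, Real.log (c' u) ≤ Real.log (c' v) := by
        have h6 : ∑ u ∈ Finset.univ.erase v, Real.log (c' u) ≤ 0 :=
          Finset.sum_nonpos fun u _ => Real.log_nonpos (h0 u).le (h1 u)
        rw [← Finset.add_sum_erase _ _ (Finset.mem_univ v)]
        linarith
      have h7 := hco c' h0 h1
      have h8 : val G lam c ≤ B := hmin (by
        simp only [K, Set.mem_pi, Set.mem_univ, forall_true_left, Set.mem_Icc]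
        exact fun _ => ⟨hδ1, le_rfl⟩)
      have hne : lam - lam0 ≠ 0 := by
        intro h'
        rw [h'] at hd
        norm_num at hd
      have h9 : 2 * (lam - lam0) * M = B + 1 := by
        rw [hM]; field_simp
      nlinarith
  refine ⟨c, hc0, ?_⟩
  intro v
  -- the first order condition
  have key : ∀ s : ℝ, 0 < s → s < 1 → ∑ w, wor G c v w ≤ lam / s := by
    intro s hs0 hs1
    set c' : V → ℝ := fun u => if u = v then s * c v else c u with hc'
    have h0' : ∀ u, 0 < c' u := by
      intro u
      simp only [hc']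
      split_ifs
      · have := hc0 v; positivity
      · exact hc0 u
    have h1' : ∀ u, c' u ≤ 1 := by
      intro u
      simp only [hc']
      split_ifs
      · have := hc0 v; have := hc1 v; nlinarith
      · exact hc1 u
    have hg := hglob c' h0' h1'
    have hdiff : ∀ u, c' u - c u = if u = v then -(1 - s) * c v else 0 := by
      intro u
      simp only [hc']
      by_cases h : u = v
      · rw [if_pos h, if_pos h, h]; ring
      · rw [if_neg h, if_neg h]; ring
    -- the logarithms of the sums
    have hA : ∑ u, ∑ w, (if G.Adj u w then Real.log (c' u + c' w) else 0)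
        - ∑ u, ∑ w, (if G.Adj u w then Real.log (c u + c w) else 0)
        ≤ -(2 * (1 - s)) * ∑ w, wor G c v w := by
      rw [← Finset.sum_sub_distrib]
      have hterm : ∀ u w, (if G.Adj u w then Real.log (c' u + c' w) else 0)
          - (if G.Adj u w then Real.log (c u + c w) else 0)
          ≤ (if G.Adj u w then (c' u - c u) / (c u + c w) else 0)
            + (if G.Adj u w then (c' w - c w) / (c u + c w) else 0) := by
        intro u w
        by_cases h : G.Adj u w
        · rw [if_pos h, if_pos h, if_pos h, if_pos h]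
          have p1 : 0 < c u + c w := by have := hc0 u; have := hc0 w; positivity
          have p2 : 0 < c' u + c' w := by have := h0' u; have := h0' w; positivity
          rw [← Real.log_div p2.ne' p1.ne', ← add_div]
          have h3 := Real.log_le_sub_one_of_pos (div_pos p2 p1)
          have h4 : (c' u + c' w) / (c u + c w) - 1
              = (c' u - c u + (c' w - c w)) / (c u + c w) := by
            field_simp
            ring
          linarith
        · simp [h]
      have h5 : ∑ u, (∑ w, (if G.Adj u w then Real.log (c' u + c' w) else 0)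
          - ∑ w, (if G.Adj u w then Real.log (c u + c w) else 0))
          ≤ ∑ u, ∑ w, ((if G.Adj u w then (c' u - c u) / (c u + c w) else 0)
            + (if G.Adj u w then (c' w - c w) / (c u + c w) else 0)) := by
        refine Finset.sum_le_sum fun u _ => ?_
        rw [← Finset.sum_sub_distrib]
        exact Finset.sum_le_sum fun w _ => hterm u w
      refine h5.trans (le_of_eq ?_)
      simp only [Finset.sum_add_distrib]
      have e1 : ∑ u, ∑ w, (if G.Adj u w then (c' w - c w) / (c u + c w) else 0)
          = ∑ u, ∑ w, (if G.Adj u w then (c' u - c u) / (c u + c w) else 0) := by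
        rw [Finset.sum_comm]
        refine Finset.sum_congr rfl fun u _ => Finset.sum_congr rfl fun w _ => ?_
        by_cases h : G.Adj u w
        · rw [if_pos h, if_pos h.symm, add_comm (c w)]
        · rw [if_neg h, if_neg (fun h' => h h'.symm)]
      rw [e1]
      have e2 : ∑ u, ∑ w, (if G.Adj u w then (c' u - c u) / (c u + c w) else 0)
          = -(1 - s) * ∑ w, wor G c v w := by
        rw [Finset.sum_eq_single v]
        · rw [Finset.mul_sum]
          refine Finset.sum_congr rfl fun w _ => ?_
          unfold wor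
          by_cases h : G.Adj v w
          · rw [if_pos h, if_pos h, hdiff v, if_pos rfl]; ring
          · rw [if_neg h, if_neg h]; ring
        · intro u _ hu
          refine Finset.sum_eq_zero fun w _ => ?_
          rw [hdiff u, if_neg hu]
          simp
        · intro h; exact absurd (Finset.mem_univ _) h
      rw [e2]; ring
    have hBs : ∑ u, Real.log (c' u) - ∑ u, Real.log (c u) = Real.log s := by
      rw [← Finset.sum_sub_distrib, Finset.sum_eq_single v]
      · simp only [hc', if_true]
        rw [Real.log_mul hs0.ne' (hc0 v).ne']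
        ring
      · intro u _ hu
        simp only [hc', if_neg hu]
        ring
      · intro h; exact absurd (Finset.mem_univ _) h
    have h6 : 0 ≤ -(2 * (1 - s)) * ∑ w, wor G c v w - 2 * lam * Real.log s := by
      unfold val at hg
      nlinarith
    have h7 : -Real.log s ≤ (1 - s) / s := by
      have h8 := Real.log_le_sub_one_of_pos (inv_pos.mpr hs0)
      rw [Real.log_inv] at h8
      have h9 : s⁻¹ - 1 = (1 - s) / s := by field_simp
      linarith
    have h10 : (1 - s) * ∑ w, wor G c v w ≤ lam * ((1 - s) / s) := by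
      have := mul_le_mul_of_nonneg_left h7 hlam
      nlinarith
    have h11 : 0 < 1 - s := by linarith
    have h12 : lam * ((1 - s) / s) = (1 - s) * (lam / s) := by ring
    rw [h12] at h10
    exact le_of_mul_le_mul_left h10 h11
  -- let `s` tend to one
  by_contra hlt'
  push Not at hlt'
  set F : ℝ := ∑ w, wor G c v w with hF
  have hFpos : 0 < F := lt_of_le_of_lt hlam hlt'
  set s : ℝ := (lam + F) / (2 * F) with hs
  have hs0 : 0 < s := by positivity
  have hs1 : s < 1 := by
    rw [hs, div_lt_one (by positivity)]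
    linarith
  have h1 := key s hs0 hs1
  rw [le_div_iff₀ hs0] at h1
  have h2 : F * s = (lam + F) / 2 := by rw [hs]; field_simp
  linarith

/-- Splitting the vertices: inside `S` the outflow is at most `al`, outside at least `al` of it
goes to `S`. -/
lemma exists_split (G : SimpleGraph V) (c : V → ℝ) (hc : ∀ v, 0 < c v) (al : ℝ) :
    ∃ S : Finset V, (∀ v ∈ S, ∑ w ∈ S, wor G c v w ≤ al) ∧
      ∀ v, v ∉ S → al ≤ ∑ w ∈ S, wor G c v w := by
  classical
  let b : V → V → ℝ := fun u w => if G.Adj u w then 1 / (c u + c w) else 0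
  have hbs : ∀ u w, b u w = b w u := by
    intro u w
    simp only [b]
    by_cases h : G.Adj u w
    · rw [if_pos h, if_pos h.symm, add_comm]
    · rw [if_neg h, if_neg (fun h' => h h'.symm)]
  have hb0 : ∀ u, b u u = 0 := by
    intro u
    simp only [b]
    rw [if_neg (G.loopless.irrefl u)]
  have hbw : ∀ u w, wor G c u w = c u * b u w := by
    intro u w
    simp only [b, wor]
    split_ifs
    · ring
    · ring
  let Φ : Finset V → ℝ := fun S => ∑ v ∈ S, 2 * (al / c v) - ∑ u ∈ S, ∑ w ∈ S, b u w
  obtain ⟨S, -, hmax⟩ := Finset.exists_max_image (Finset.univ : Finset (Finset V)) Φ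
    ⟨∅, Finset.mem_univ _⟩
  have hins : ∀ (T : Finset V) (v : V), v ∉ T →
      Φ (insert v T) = Φ T + 2 * (al / c v) - 2 * ∑ w ∈ T, b v w := by
    intro T v hv
    simp only [Φ]
    rw [Finset.sum_insert hv, Finset.sum_insert hv, Finset.sum_insert hv, hb0 v]
    have h1 : ∑ u ∈ T, ∑ w ∈ insert v T, b u w
        = ∑ u ∈ T, b v u + ∑ u ∈ T, ∑ w ∈ T, b u w := by
      rw [← Finset.sum_add_distrib]
      refine Finset.sum_congr rfl fun u _ => ?_
      rw [Finset.sum_insert hv, hbs u v]
    rw [h1]
    ring
  refine ⟨S, ?_, ?_⟩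
  · intro v hv
    have h1 := hmax (S.erase v) (Finset.mem_univ _)
    have h2 := hins (S.erase v) v (Finset.notMem_erase v S)
    rw [Finset.insert_erase hv] at h2
    have h3 : ∑ w ∈ S.erase v, b v w = ∑ w ∈ S, b v w := by
      rw [← Finset.add_sum_erase S (fun w => b v w) hv, hb0 v, zero_add]
    rw [h3] at h2
    have h4 : ∑ w ∈ S, wor G c v w = c v * ∑ w ∈ S, b v w := by
      rw [Finset.mul_sum]
      exact Finset.sum_congr rfl fun w _ => hbw v w
    rw [h4]
    have h5 : ∑ w ∈ S, b v w ≤ al / c v := by linarith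
    have h6 := mul_le_mul_of_nonneg_left h5 (hc v).le
    rwa [mul_div_cancel₀ _ (hc v).ne'] at h6
  · intro v hv
    have h1 := hmax (insert v S) (Finset.mem_univ _)
    have h2 := hins S v hv
    have h4 : ∑ w ∈ S, wor G c v w = c v * ∑ w ∈ S, b v w := by
      rw [Finset.mul_sum]
      exact Finset.sum_congr rfl fun w _ => hbw v w
    rw [h4]
    have h5 : al / c v ≤ ∑ w ∈ S, b v w := by linarith
    have h6 := mul_le_mul_of_nonneg_left h5 (hc v).le
    rwa [mul_div_cancel₀ _ (hc v).ne'] at h6

end Weights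


/-- Partition theorem: if `mad F < a + b` then the vertices split into a set `S` all of whose
nonempty subgraphs have average degree at most `a` and a rest with average degrees at most `b`. -/
lemma partition_mad {n : ℕ} (F : SimpleGraph (Fin n)) (a b : ℝ) (h : mad F < a + b) :
    ∃ S : Finset (Fin n),
      (∀ (H : F.Subgraph), H.verts.Nonempty → (∀ v ∈ H.verts, v ∈ S) →
        2 * (H.edgeSet.ncard : ℝ) / (H.verts.ncard : ℝ) ≤ a) ∧
      ∀ (H : F.Subgraph), H.verts.Nonempty → (∀ v ∈ H.verts, v ∉ S) →
        2 * (H.edgeSet.ncard : ℝ) / (H.verts.ncard : ℝ) ≤ b := by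
  classical
  have hm := mad_nonneg F
  obtain ⟨c, hc, hco⟩ := exists_weights F (mad F / 2) ((a + b) / 2) (by linarith) (by linarith)
    (exists_ori_out F (mad F / 2) fun W x hx => flow_le_mad W x hx)
  obtain ⟨S, hS1, hS2⟩ := exists_split F c hc (a / 2)
  have hx := wor_mem F c hc
  have main : ∀ (H : F.Subgraph) (t : ℝ), H.verts.Nonempty →
      (∀ v ∈ H.verts, ∑ w ∈ H.verts.toFinset, wor F c v w ≤ t / 2) →
      2 * (H.edgeSet.ncard : ℝ) / (H.verts.ncard : ℝ) ≤ t := by
    intro H t hH hv
    set W : Finset (Fin n) := H.verts.toFinset with hW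
    have hWv : ∀ v, v ∈ W ↔ v ∈ H.verts := fun v => by simp [hW]
    have hcard : H.verts.ncard = #W := Set.ncard_eq_toFinset_card' _
    have hpos : (0 : ℝ) < #W := by
      obtain ⟨v, hv⟩ := hH
      exact_mod_cast Finset.card_pos.mpr ⟨v, (hWv v).mpr hv⟩
    have h1 := edges_le_flow _ hx H W fun v hv => (hWv v).mpr hv
    have h2 : ∑ u ∈ W, ∑ v ∈ W, wor F c u v ≤ (#W : ℝ) * (t / 2) := by
      have := Finset.sum_le_sum fun u (hu : u ∈ W) => hv u ((hWv u).mp hu)
      rw [Finset.sum_const, nsmul_eq_mul] at this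
      exact this
    rw [hcard, div_le_iff₀ hpos]
    nlinarith
  refine ⟨S, ?_, ?_⟩
  · intro H hH hHS
    refine main H a hH fun v hv => ?_
    have hsub : H.verts.toFinset ⊆ S := by
      intro w hw
      exact hHS w (by simpa using hw)
    exact (Finset.sum_le_sum_of_subset_of_nonneg hsub fun w _ _ => hx.1 v w).trans
      (hS1 v (hHS v hv))
  · intro H hH hHS
    refine main H b hH fun v hv => ?_
    have hdis : Disjoint H.verts.toFinset S := by
      rw [Finset.disjoint_left]
      intro w hw
      exact hHS w (by simpa using hw)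
    have h3 := hS2 v (hHS v hv)
    have h4 : ∑ w ∈ H.verts.toFinset, wor F c v w + ∑ w ∈ S, wor F c v w
        ≤ ∑ w, wor F c v w := by
      rw [← Finset.sum_union hdis]
      exact Finset.sum_le_sum_of_subset_of_nonneg (Finset.subset_univ _) fun w _ _ => hx.1 v w
    have h5 := hco v
    linarith

/-- If all nonempty subgraphs of `F` inside `A` have average degree at most `a < m_cr(G, r)`, then
`A` can be coloured with `r` colours without monochromatic copies of `G`. -/
lemma colour_part {n : ℕ} {W : Type} [Nonempty W] (G : SimpleGraph W) (r : ℕ)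
    (F : SimpleGraph (Fin n)) (A : Finset (Fin n)) (a : ℝ) (ha : a < mcr G r)
    (hA : ∀ (H : F.Subgraph), H.verts.Nonempty → (∀ v ∈ H.verts, v ∈ A) →
        2 * (H.edgeSet.ncard : ℝ) / (H.verts.ncard : ℝ) ≤ a) :
    ∃ c : {v : Fin n // v ∈ A} → Fin r, ¬ ∃ f : W → {v : Fin n // v ∈ A}, Function.Injective f ∧
      (∀ x y, G.Adj x y → F.Adj (f x).1 (f y).1) ∧ ∀ x y, c (f x) = c (f y) := by
  classical
  set m : ℕ := Fintype.card {v : Fin n // v ∈ A} with hm
  let e : Fin m ≃ {v : Fin n // v ∈ A} := (Fintype.equivFin _).symm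
  let F' : SimpleGraph (Fin m) := F.comap fun i => (e i).1
  have hinj : Function.Injective fun i : Fin m => (e i).1 :=
    fun i j h => e.injective (Subtype.ext h)
  have hnot : ¬ Arrows F' G r := by
    intro harr
    have hne : Nonempty (Fin m) := by
      by_contra hem
      rw [not_nonempty_iff] at hem
      obtain ⟨f, -⟩ := harr fun i => (hem.false i).elim
      exact hem.false (f (Classical.arbitrary W))
    obtain ⟨i0⟩ := hne
    have hmad : mad F' ≤ a := by
      apply csSup_le
      · exact ⟨_, ⊤, ⟨i0, trivial⟩, rfl⟩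
      · rintro _ ⟨H, hH, rfl⟩
        let φ : F' ↪g F := ⟨⟨fun i => (e i).1, hinj⟩, Iff.rfl⟩
        let H2 : F.Subgraph := H.map φ.toHom
        have hv : H2.verts = (fun i => (e i).1) '' H.verts := rfl
        have hvc : H2.verts.ncard = H.verts.ncard := by
          rw [hv]; exact Set.ncard_image_of_injective _ hinj
        have hec : H2.edgeSet.ncard = H.edgeSet.ncard := by
          have h1 : H2.edgeSet = Sym2.map (fun i => (e i).1) '' H.edgeSet :=
            SimpleGraph.Subgraph.edgeSet_map _ _
          rw [h1]; exact Set.ncard_image_of_injective _ (Sym2.map.injective hinj)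
        have h3 := hA H2 (by rw [hv]; exact hH.image _) (by
          intro v hvv
          rw [hv] at hvv
          obtain ⟨i, _, rfl⟩ := hvv
          exact (e i).2)
        rw [hvc, hec] at h3
        exact h3
    have hle : mcr G r ≤ mad F' := by
      apply csInf_le
      · refine ⟨0, ?_⟩
        rintro _ ⟨_, F'', _, rfl⟩
        exact mad_nonneg F''
      · exact ⟨m, F', harr, rfl⟩
    linarith
  unfold Arrows at hnot
  push Not at hnot
  obtain ⟨c', hc'⟩ := hnot
  refine ⟨fun v => c' (e.symm v), ?_⟩
  rintro ⟨f, hf1, hf2, hf3⟩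
  obtain ⟨x, y, hxy⟩ := hc' (fun w => e.symm (f w)) (fun i j h => hf1 (e.symm.injective h))
    (by
      intro p q hpq
      simp only [F', SimpleGraph.comap_adj, Equiv.apply_symm_apply]
      exact hf2 p q hpq)
  exact hxy (hf3 x y)

lemma arrows_complete {W : Type} [Fintype W] (G : SimpleGraph W) (r : ℕ) :
    Arrows (⊤ : SimpleGraph (Fin (r * Fintype.card W + 1))) G r := by
  intro c
  obtain ⟨y, hy⟩ := Fintype.exists_lt_card_fiber_of_mul_lt_card (f := c)
    (n := Fintype.card W) (by simp)
  have hne : Nonempty (W ↪ {i // i ∈ (Finset.univ.filter fun i => c i = y)}) := by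
    apply Function.Embedding.nonempty_of_card_le
    simp only [Fintype.card_coe]
    exact hy.le
  obtain ⟨e⟩ := hne
  refine ⟨fun i => (e i).1, fun i j h => e.injective (Subtype.ext h), ?_, ?_⟩
  · intro a b hab
    rw [SimpleGraph.top_adj]
    intro h
    exact hab.ne (e.injective (Subtype.ext h))
  · intro a b
    have h1 := (Finset.mem_filter.mp (e a).2).2
    have h2 := (Finset.mem_filter.mp (e b).2).2
    rw [h1, h2]

/-- `m_cr(G, ·)` is superadditive. -/
theorem superadditive {W : Type} [Fintype W] [Nonempty W] (G : SimpleGraph W) (r s : ℕ) :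
    mcr G r + mcr G s ≤ mcr G (r + s) := by
  classical
  refine le_csInf ⟨_, _, _, arrows_complete G (r + s), rfl⟩ ?_
  rintro _ ⟨n, F, hF, rfl⟩
  by_contra hlt
  push Not at hlt
  set g : ℝ := (mcr G r + mcr G s - mad F) / 3 with hg
  have hg0 : 0 < g := by rw [hg]; linarith
  obtain ⟨S, hS1, hS2⟩ := partition_mad F (mcr G r - g) (mcr G s - g) (by
    have : mad F = mcr G r + mcr G s - 3 * g := by rw [hg]; ring
    linarith)
  obtain ⟨c1, hc1⟩ := colour_part G r F S (mcr G r - g) (by linarith) hS1
  obtain ⟨c2, hc2⟩ := colour_part G s F Sᶜ (mcr G s - g) (by linarith) (by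
    intro H hH hHS
    exact hS2 H hH fun v hv => by simpa using hHS v hv)
  let c : Fin n → Fin (r + s) := fun v =>
    if h : v ∈ S then Fin.castAdd s (c1 ⟨v, h⟩)
    else Fin.natAdd r (c2 ⟨v, Finset.mem_compl.mpr h⟩)
  obtain ⟨f, hf1, hf2, hf3⟩ := hF c
  have w0 : W := Classical.arbitrary W
  have hval1 : ∀ v (h : v ∈ S), c v = Fin.castAdd s (c1 ⟨v, h⟩) := by
    intro v h
    simp only [c]
    rw [dif_pos h]
  have hval2 : ∀ v (h : v ∉ S), c v = Fin.natAdd r (c2 ⟨v, Finset.mem_compl.mpr h⟩) := by
    intro v h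
    simp only [c]
    rw [dif_neg h]
  have hsep : ∀ v w, v ∈ S → w ∉ S → c v ≠ c w := by
    intro v w hv hw h
    rw [hval1 v hv, hval2 w hw] at h
    have := congrArg Fin.val h
    simp only [Fin.val_castAdd, Fin.val_natAdd] at this
    have h1 := (c1 ⟨v, hv⟩).isLt
    omega
  by_cases h0 : f w0 ∈ S
  · have hall : ∀ i, f i ∈ S := by
      intro i
      by_contra hi
      exact hsep _ _ h0 hi (hf3 w0 i)
    apply hc1
    refine ⟨fun i => ⟨f i, hall i⟩, ?_, ?_, ?_⟩
    · intro i j h
      exact hf1 (Subtype.ext_iff.mp h)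
    · intro a b hab
      exact hf2 a b hab
    · intro a b
      have h1 := hf3 a b
      rw [hval1 _ (hall a), hval1 _ (hall b)] at h1
      exact Fin.castAdd_injective _ _ h1
  · have hall : ∀ i, f i ∉ S := by
      intro i hi
      exact hsep _ _ hi h0 (hf3 i w0)
    apply hc2
    refine ⟨fun i => ⟨f i, Finset.mem_compl.mpr (hall i)⟩, ?_, ?_, ?_⟩
    · intro i j h
      exact hf1 (Subtype.ext_iff.mp h)
    · intro a b hab
      exact hf2 a b hab
    · intro a b
      have h1 := hf3 a b
      rw [hval2 _ (hall a), hval2 _ (hall b)] at h1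
      exact Fin.natAdd_injective _ _ h1

/-- `m_cr(G, 1) ≥ mad(G)`. -/
lemma mad_le_mcr_one {k : ℕ} (G : SimpleGraph (Fin k)) : mad G ≤ mcr G 1 := by
  classical
  refine le_csInf ⟨_, _, _, arrows_complete G 1, rfl⟩ ?_
  rintro _ ⟨n, F, hF, rfl⟩
  obtain ⟨f, hf1, hf2, -⟩ := hF fun _ => 0
  by_cases hk : Nonempty (Fin k)
  · obtain ⟨i0⟩ := hk
    apply csSup_le
    · exact ⟨_, ⊤, ⟨i0, trivial⟩, rfl⟩
    · rintro _ ⟨H, hH, rfl⟩
      let φ : G →g F := ⟨f, fun {a b} h => hf2 a b h⟩
      let H2 : F.Subgraph := H.map φ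
      have hv : H2.verts = f '' H.verts := rfl
      have hvc : H2.verts.ncard = H.verts.ncard := by
        rw [hv]; exact Set.ncard_image_of_injective _ hf1
      have hec : H2.edgeSet.ncard = H.edgeSet.ncard := by
        have h1 : H2.edgeSet = Sym2.map f '' H.edgeSet := SimpleGraph.Subgraph.edgeSet_map _ _
        rw [h1]; exact Set.ncard_image_of_injective _ (Sym2.map.injective hf1)
      rw [← hvc, ← hec]
      exact le_csSup (mad_set_bdd F) ⟨H2, by rw [hv]; exact hH.image _, rfl⟩
  · have : mad G = 0 := by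
      unfold mad
      have he : {x : ℝ | ∃ H : G.Subgraph, H.verts.Nonempty ∧
          x = 2 * (H.edgeSet.ncard : ℝ) / (H.verts.ncard : ℝ)} = ∅ := by
        ext x
        simp only [Set.mem_ofPred_eq, Set.mem_empty_iff_false, iff_false]
        rintro ⟨H, ⟨v, _⟩, -⟩
        exact hk ⟨v⟩
      rw [he, Real.sSup_empty]
    rw [this]
    exact mad_nonneg F

lemma mcr_nonneg {W : Type} (G : SimpleGraph W) (r : ℕ) : 0 ≤ mcr G r := by
  apply Real.sInf_nonneg
  rintro _ ⟨_, F, _, rfl⟩
  exact mad_nonneg F

/-- **Theorem.** For every graph `G` with at least one vertex and all `r`, `s`: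
`m_cr(G, r + s) ≥ m_cr(G, r) + m_cr(G, s)` and `m_cr(G, r) ≥ r mad(G)`. -/
theorem result {k : ℕ} (hk : 1 ≤ k) (G : SimpleGraph (Fin k)) (r s : ℕ) :
    mcr G r + mcr G s ≤ mcr G (r + s) ∧ (r : ℝ) * mad G ≤ mcr G r := by
  have : Nonempty (Fin k) := ⟨⟨0, hk⟩⟩
  refine ⟨superadditive G r s, ?_⟩
  induction r with
  | zero => simpa using mcr_nonneg G 0
  | succ r ih =>
    have h1 := superadditive G r 1
    have h2 := mad_le_mcr_one G
    push_cast
    linarith

end Pool.Agent.Results.MP_09f43a_co.Superadditive
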